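import Pool.Agent.Y669.TA.LieQ

/-! Fixed premises: the quasi-identities of every class of Lie rings that contains the finite
nilpotent Lie rings of exponent two. Stronger form of `Undecidable`. -/

set_option autoImplicit false

namespace Pool.Agent.Results.MP_b13462_lc.EveryClass

open Pool.Agent.H662R2.SM
open Pool.Agent.Results.MP_b13462_lc.Undecidable

/-- The quasi-identity which says that the premises `P` imply
`[x_{w_1}, [x_{w_2}, ..., [x_{w_k}, x_j]...]] = 0`. -/
def quasi (P : List (Term × Term)) (j : ℕ) (w : List ℕ) : QuasiId :=
  ⟨P, (w.foldr (fun i t => .br (.var i) t) (.var j), .zero)⟩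

/-- The quasi-identity `q` holds in all members of the class `C` of Lie rings. -/
def TrueInClass (C : ∀ L : Type, LieRing L → Prop) (q : QuasiId) : Prop :=
  ∀ (L : Type) (i : LieRing L), C L i → q.TrueIn L

/-- The quasi-identity `q` fails in some finite nilpotent Lie ring in which `x + x = 0` for all
`x`. -/
def Refuted (q : QuasiId) : Prop :=
  ∃ (L : Type) (_ : LieRing L), Finite L ∧ LieRing.IsNilpotent L ∧ (∀ x : L, x + x = 0) ∧
    ¬ q.TrueIn L

/-- The class `C` contains all finite nilpotent Lie rings in which `x + x = 0` for all `x`. -/
def ContainsFiniteNilpotent (C : ∀ L : Type, LieRing L → Prop) : Prop :=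
  ∀ (L : Type) (i : LieRing L), Finite L → LieRing.IsNilpotent L → (∀ x : L, x + x = 0) → C L i

theorem mono_code (w : List ℕ) (j : ℕ) :
    (w.foldr (fun i t => .br (.var i) t) (.var j) : Term).code =
      w.flatMap (fun i => [3, i + 4]) ++ [j + 4] := by
  induction w with
  | nil => rfl
  | cons a w ih =>
    rw [List.foldr_cons, Term.code, ih]
    simp [Term.code]

theorem code_computable (P : List (Term × Term)) (j : ℕ) :
    Computable fun w : List ℕ => (quasi P j w).code := by
  have hfm : Primrec (fun l : List ℕ => l.flatMap (fun x => [3, x + 4])) := by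
    refine Primrec.list_flatMap Primrec.id ?_
    have : Primrec (fun x : ℕ => [3, x + 4]) := by
      refine Primrec.list_cons.comp (Primrec.const _) ?_
      refine Primrec.list_cons.comp ?_ (Primrec.const _)
      exact Primrec.nat_add.comp Primrec.id (Primrec.const 4)
    exact this.comp Primrec.snd
  have : (fun w : List ℕ => (quasi P j w).code) = fun w => P.length ::
      ((P.flatMap fun p => p.1.code ++ p.2.code) ++
        ((w.flatMap (fun i => [3, i + 4]) ++ [j + 4]) ++ [0])) := by
    funext w
    simp only [quasi, QuasiId.code, mono_code, Term.code]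
  rw [this]
  apply Primrec.to_comp
  refine Primrec.list_cons.comp (Primrec.const _) ?_
  refine Primrec.list_append.comp (Primrec.const _) ?_
  refine Primrec.list_append.comp ?_ (Primrec.const _)
  exact Primrec.list_append.comp hfm (Primrec.const _)

/-- There is one finite list `P` of equations in the language of Lie rings and a variable `x_j`
such that, for the quasi-identities
`q_w = (P implies [x_{w_1}, [x_{w_2}, ..., [x_{w_k}, x_j]...]] = 0)`, where `w` runs over the finite
sequences of natural numbers,
(1) no algorithm gives the answer `true` for all `w` for which `q_w` holds in all Lie rings and the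
answer `false` for all `w` for which `q_w` fails in a finite nilpotent Lie ring of exponent two;
(2) for every class `C` of Lie rings that contains the finite nilpotent Lie rings of exponent two
(for instance: the finite Lie rings; the nilpotent, the solvable, the residually finite, all Lie
rings) no algorithm decides, given `w`, whether `q_w` holds in `C`;
(3) in particular the equality problem for the class of all finite Lie rings is undecidable. -/
theorem result :
    (∃ (P : List (Term × Term)) (j : ℕ),
      (¬ ∃ f : List ℕ → Bool, Computable f ∧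
        (∀ w, (∀ (L : Type) [LieRing L], (quasi P j w).TrueIn L) → f w = true) ∧
        ∀ w, Refuted (quasi P j w) → f w = false) ∧
      (∀ C : (∀ L : Type, LieRing L → Prop), ContainsFiniteNilpotent C →
        ¬ ∃ f : List ℕ → Bool, Computable f ∧
          ∀ w, f w = true ↔ TrueInClass C (quasi P j w))) ∧
    ¬ EqualityProblemDecidable := by
  obtain ⟨P, j, w, hw, h0, h1⟩ := Pool.Agent.Y669.TA.LieQ.exists_prem
  have key : ¬ ∃ f : List ℕ → Bool, Computable f ∧
      (∀ w, (∀ (L : Type) [LieRing L], (quasi P j w).TrueIn L) → f w = true) ∧
      ∀ w, Refuted (quasi P j w) → f w = false := by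
    rintro ⟨f, hf, hf0, hf1⟩
    exact insep (fun n => f (w n)) (hf.comp hw) (fun n hn => hf0 _ (h0 n hn))
      (fun n hn => hf1 _ (h1 n hn))
  have key2 : ∀ C : (∀ L : Type, LieRing L → Prop), ContainsFiniteNilpotent C →
      ¬ ∃ f : List ℕ → Bool, Computable f ∧
        ∀ w, f w = true ↔ TrueInClass C (quasi P j w) := by
    rintro C hC ⟨f, hf, hfC⟩
    refine key ⟨f, hf, fun w hw => ?_, ?_⟩
    · rw [hfC]
      intro L i _
      exact hw L
    · rintro w ⟨L, i, hL1, hL2, hL3, hne⟩
      rw [Bool.eq_false_iff]
      intro h
      rw [hfC] at h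
      exact hne (h L i (hC L i hL1 hL2 hL3))
  refine ⟨⟨P, j, key, key2⟩, ?_⟩
  rintro ⟨f, hf, hfv⟩
  refine key2 (fun L _ => Finite L) (fun L _ h _ _ => h)
    ⟨fun w => f (quasi P j w).code, hf.comp (code_computable P j), fun w => ?_⟩
  rw [hfv]
  exact ⟨fun h L i hL => @h L i hL, fun h L i hL => h L i hL⟩

end Pool.Agent.Results.MP_b13462_lc.EveryClass
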